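import Mathlib

namespace Pool.Agent.Results.MP_6b7ad2_lc.TurbulentGdelta

open Set Topology

variable {G X : Type*}

/-- The `(U,V)`-local graph: `x` and `y` both lie in `U` and `g • x = y` for some `g ∈ V`. -/
def LocalRel [SMul G X] (U : Set X) (V : Set G) (x y : X) : Prop :=
  x ∈ U ∧ y ∈ U ∧ ∃ g ∈ V, g • x = y

/-- The local orbit `O(x,U,V)`: all points reachable from `x` by a finite path of the
`(U,V)`-local graph. -/
def LocalOrbit [SMul G X] (x : X) (U : Set X) (V : Set G) : Set X :=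
  {y | Relation.ReflTransGen (LocalRel U V) x y}

/-- `x` is turbulent: for every open `U` containing `x` and every symmetric open neighbourhood
`V` of the identity, the closure of the local orbit `O(x,U,V)` has nonempty interior. -/
def IsTurbulent (G : Type*) {X : Type*} [Group G] [TopologicalSpace G] [TopologicalSpace X]
    [SMul G X] (x : X) : Prop :=
  ∀ U : Set X, IsOpen U → x ∈ U → ∀ V : Set G, IsOpen V → (1 : G) ∈ V →
    (∀ g ∈ V, g⁻¹ ∈ V) → (interior (closure (LocalOrbit x U V))).Nonempty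

section basic

variable [Group G] [MulAction G X]

theorem localRel_symm {U : Set X} {V : Set G} (hV : ∀ g ∈ V, g⁻¹ ∈ V) {x y : X}
    (h : LocalRel U V x y) : LocalRel U V y x := by
  obtain ⟨hx, hy, g, hg, rfl⟩ := h
  exact ⟨hy, hx, g⁻¹, hV g hg, by simp⟩

theorem rtg_symm {U : Set X} {V : Set G} (hV : ∀ g ∈ V, g⁻¹ ∈ V) {x y : X}
    (h : Relation.ReflTransGen (LocalRel U V) x y) :
    Relation.ReflTransGen (LocalRel U V) y x := by
  induction h with
  | refl => exact Relation.ReflTransGen.refl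
  | tail _ hbc ih => exact Relation.ReflTransGen.head (localRel_symm hV hbc) ih

theorem mem_localOrbit_self (U : Set X) (V : Set G) (x : X) : x ∈ LocalOrbit x U V :=
  Relation.ReflTransGen.refl

theorem localOrbit_subset {U : Set X} {V : Set G} {x : X} (hx : x ∈ U) :
    LocalOrbit x U V ⊆ U := by
  intro y hy
  rcases Relation.ReflTransGen.cases_tail hy with h | ⟨z, _, h⟩
  · rwa [h]
  · exact h.2.1

theorem localOrbit_mono {U U' : Set X} {V V' : Set G} (hU : U' ⊆ U) (hV : V' ⊆ V) (x : X) :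
    LocalOrbit x U' V' ⊆ LocalOrbit x U V := by
  intro y hy
  refine Relation.ReflTransGen.mono ?_ _ _ hy
  rintro a b ⟨ha, hb, g, hg, h⟩
  exact ⟨hU ha, hU hb, g, hV hg, h⟩

theorem localOrbit_eq {U : Set X} {V : Set G} (hV : ∀ g ∈ V, g⁻¹ ∈ V) {x z : X}
    (hz : z ∈ LocalOrbit x U V) : LocalOrbit x U V ⊆ LocalOrbit z U V := by
  intro y hy
  exact (rtg_symm hV hz).trans hy

end basic

section top

variable [Group G] [TopologicalSpace X] [MulAction G X] [ContinuousConstSMul G X]

theorem closure_inv {U : Set X} {V : Set G} (hU : IsOpen U) {x : X} (hx : x ∈ U) {y z : X}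
    (hy : y ∈ closure (LocalOrbit x U V)) (h : LocalRel U V y z) :
    z ∈ closure (LocalOrbit x U V) := by
  obtain ⟨hyU, hzU, g, hg, rfl⟩ := h
  rw [mem_closure_iff] at hy ⊢
  intro N hN hzN
  have hc : Continuous fun w : X => g • w := continuous_const_smul g
  obtain ⟨y', hy'1, hy'2⟩ := hy ((fun w : X => g • w) ⁻¹' (N ∩ U)) ((hN.inter hU).preimage hc)
    ⟨hzN, hzU⟩
  exact ⟨g • y', hy'1.1, Relation.ReflTransGen.tail hy'2
    ⟨localOrbit_subset hx hy'2, hy'1.2, g, hg, rfl⟩⟩

theorem localOrbit_subset_closure {U : Set X} {V : Set G} (hU : IsOpen U) {x : X} (hx : x ∈ U)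
    {z : X} (hz : z ∈ closure (LocalOrbit x U V)) :
    LocalOrbit z U V ⊆ closure (LocalOrbit x U V) := by
  intro y hy
  induction hy with
  | refl => exact hz
  | tail _ hbc ih => exact closure_inv hU hx ih hbc

theorem interior_inv {U : Set X} {V : Set G} (hU : IsOpen U) {x : X}
    (hx : x ∈ U) {y z : X} (hy : y ∈ interior (closure (LocalOrbit x U V)))
    (h : LocalRel U V y z) : z ∈ interior (closure (LocalOrbit x U V)) := by
  obtain ⟨hyU, hzU, g, hg, rfl⟩ := h
  rw [mem_interior]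
  refine ⟨((fun w : X => g⁻¹ • w) ⁻¹' (interior (closure (LocalOrbit x U V)) ∩ U)) ∩ U, ?_,
    ?_, ?_⟩
  · rintro w ⟨⟨hw1, hw2⟩, hw3⟩
    refine closure_inv hU hx (interior_subset hw1) ⟨hw2, hw3, g, hg, ?_⟩
    simp
  · exact ((isOpen_interior.inter hU).preimage (continuous_const_smul g⁻¹)).inter hU
  · refine ⟨⟨?_, ?_⟩, hzU⟩
    · simpa using hy
    · simpa using hyU

/-- If the closure of the local orbit has nonempty interior then `x` is in that interior. -/
theorem self_mem_interior {U : Set X} {V : Set G} (hU : IsOpen U) (hV : ∀ g ∈ V, g⁻¹ ∈ V)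
    {x : X} (hx : x ∈ U) (h : (interior (closure (LocalOrbit x U V))).Nonempty) :
    x ∈ interior (closure (LocalOrbit x U V)) := by
  obtain ⟨w, hw⟩ := h
  obtain ⟨z, hz1, hz2⟩ := mem_closure_iff.1 (interior_subset hw) _ isOpen_interior hw
  have hzx : Relation.ReflTransGen (LocalRel U V) z x := rtg_symm hV hz2
  clear hz2
  induction hzx using Relation.ReflTransGen.head_induction_on with
  | refl => exact hz1
  | head hab _ ih => exact ih (interior_inv hU hx hz1 hab)

theorem interior_eq_of_inter {U : Set X} {V : Set G} (hU : IsOpen U)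
    (hV : ∀ g ∈ V, g⁻¹ ∈ V) {x x' : X} (hx : x ∈ U) (hx' : x' ∈ U) {y : X}
    (hy : y ∈ interior (closure (LocalOrbit x U V)))
    (hy' : y ∈ interior (closure (LocalOrbit x' U V))) :
    closure (LocalOrbit x U V) ⊆ closure (LocalOrbit x' U V) := by
  obtain ⟨z, hz1, hz2⟩ := mem_closure_iff.1 (interior_subset hy) _
    (isOpen_interior.inter isOpen_interior) ⟨hy, hy'⟩
  refine closure_minimal ?_ isClosed_closure
  exact (localOrbit_eq hV hz2).trans
    (localOrbit_subset_closure hU hx' (interior_subset hz1.2))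

/-- The set of points of `U` whose local orbit meets an open set `N` is open. -/
theorem isOpen_meets {U : Set X} (V : Set G) (hU : IsOpen U) {N : Set X} (hN : IsOpen N) :
    IsOpen {y | y ∈ U ∧ (LocalOrbit y U V ∩ N).Nonempty} := by
  rw [isOpen_iff_forall_mem_open]
  rintro y ⟨hyU, z, hz1, hz2⟩
  change Relation.ReflTransGen (LocalRel U V) y z at hz1
  induction hz1 using Relation.ReflTransGen.head_induction_on with
  | refl =>
    exact ⟨N ∩ U, fun w hw => ⟨hw.2, w, mem_localOrbit_self U V w, hw.1⟩, hN.inter hU,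
      hz2, hyU⟩
  | head hab _ ih =>
    obtain ⟨_, hbU, g, hg, rfl⟩ := hab
    obtain ⟨M, hM1, hM2, hM3⟩ := ih hbU
    refine ⟨(fun w : X => g • w) ⁻¹' M ∩ U, ?_,
      (hM2.preimage (continuous_const_smul g)).inter hU, hM3, hyU⟩
    rintro w ⟨hw1, hw2⟩
    obtain ⟨hw3, v, hv1, hv2⟩ := hM1 hw1
    exact ⟨hw2, v, Relation.ReflTransGen.head ⟨hw2, hw3, g, hg, rfl⟩ hv1, hv2⟩

theorem isGδ_aux [SecondCountableTopology X] {U : Set X} {V : Set G} (hU : IsOpen U)
    (hV : ∀ g ∈ V, g⁻¹ ∈ V) :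
    IsGδ {x | x ∈ U ∧ x ∈ interior (closure (LocalOrbit x U V))} := by
  classical
  set W : X → Set X := fun x => interior (closure (LocalOrbit x U V)) with hWdef
  set A : Set X := {x | x ∈ U ∧ x ∈ W x} with hA
  have hWeq : ∀ x ∈ A, ∀ x' ∈ A, ∀ y, y ∈ W x → y ∈ W x' → W x = W x' := by
    intro x hx x' hx' y hy hy'
    have h1 := interior_eq_of_inter hU hV hx.1 hx'.1 hy hy'
    have h2 := interior_eq_of_inter hU hV hx'.1 hx.1 hy' hy
    exact congrArg interior (Subset.antisymm h1 h2)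
  set B := TopologicalSpace.countableBasis X with hB
  have hBb := TopologicalSpace.isBasis_countableBasis X
  have hBc : B.Countable := TopologicalSpace.countable_countableBasis X
  set Gn : Set X → Set X := fun N => {y | y ∈ U ∧ (∃ x ∈ A, y ∈ W x) ∧
    ∀ x ∈ A, N ⊆ W x → y ∈ W x → (LocalOrbit y U V ∩ N).Nonempty} with hGn
  have hopen : ∀ N ∈ B, IsOpen (Gn N) := by
    intro N hN
    rw [isOpen_iff_forall_mem_open]
    rintro y ⟨hyU, ⟨x0, hx0, hyx0⟩, hy⟩
    by_cases hNW : N ⊆ W x0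
    · have h1 := hy x0 hx0 hNW hyx0
      refine ⟨W x0 ∩ {y | y ∈ U ∧ (LocalOrbit y U V ∩ N).Nonempty}, ?_,
        isOpen_interior.inter (isOpen_meets V hU (hBb.isOpen hN)), hyx0, hyU, h1⟩
      rintro w ⟨hw1, hw2, hw3⟩
      exact ⟨hw2, ⟨x0, hx0, hw1⟩, fun _ _ _ _ => hw3⟩
    · refine ⟨W x0 ∩ U, ?_, isOpen_interior.inter hU, hyx0, hyU⟩
      rintro w ⟨hw1, hw2⟩
      refine ⟨hw2, ⟨x0, hx0, hw1⟩, ?_⟩
      intro x hx hNx hwx
      exact absurd (hWeq x hx x0 hx0 w hwx hw1 ▸ hNx) hNW
  have hΩ : IsOpen {y | y ∈ U ∧ ∃ x ∈ A, y ∈ W x} := by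
    have : {y | y ∈ U ∧ ∃ x ∈ A, y ∈ W x} = U ∩ ⋃ x ∈ A, W x := by
      ext y; simp
    rw [this]
    exact hU.inter (isOpen_biUnion fun x _ => isOpen_interior)
  have hAeq : A = {y | y ∈ U ∧ ∃ x ∈ A, y ∈ W x} ∩
      ⋂ N ∈ {N | N ∈ B ∧ N.Nonempty}, Gn N := by
    ext y
    constructor
    · intro hy
      refine ⟨⟨hy.1, y, hy, hy.2⟩, ?_⟩
      simp only [mem_iInter]
      rintro N ⟨hN, n, hn⟩
      refine ⟨hy.1, ⟨y, hy, hy.2⟩, ?_⟩
      intro x hx hNx hyx
      have hW : W x = W y := hWeq x hx y hy y hyx hy.2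
      have hny : n ∈ closure (LocalOrbit y U V) := by
        have : n ∈ W y := hW ▸ hNx hn
        exact interior_subset this
      obtain ⟨z, hz1, hz2⟩ := mem_closure_iff.1 hny N (hBb.isOpen hN) hn
      exact ⟨z, hz2, hz1⟩
    · rintro ⟨⟨hyU, x, hx, hyx⟩, hy⟩
      simp only [mem_iInter] at hy
      refine ⟨hyU, ?_⟩
      have hsub : W x ⊆ closure (LocalOrbit y U V) := by
        intro w hw
        rw [hBb.mem_closure_iff]
        intro N hN hwN
        obtain ⟨N', hN', hwN', hN's⟩ := hBb.exists_subset_of_mem_open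
          (show w ∈ N ∩ W x from ⟨hwN, hw⟩) ((hBb.isOpen hN).inter isOpen_interior)
        obtain ⟨z, hz1, hz2⟩ := (hy N' ⟨hN', w, hwN'⟩).2.2 x hx
          (hN's.trans inter_subset_right) hyx
        exact ⟨z, (hN's hz2).1, hz1⟩
      exact interior_maximal hsub isOpen_interior hyx
  have hres : IsGδ A := by
    rw [hAeq]
    refine IsGδ.inter hΩ.isGδ ?_
    refine IsGδ.biInter (hBc.mono fun N hN => hN.1) ?_
    intro N hN
    exact (hopen N hN.1).isGδ
  exact hres

end top

/-- For every Polish group `G` and every Polish `G`-space `X`, the set of turbulent points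
is a `Gδ` subset of `X`. -/
theorem result (G X : Type*) [Group G] [TopologicalSpace G] [IsTopologicalGroup G]
    [PolishSpace G] [TopologicalSpace X] [PolishSpace X] [MulAction G X] [ContinuousSMul G X] :
    IsGδ {x : X | IsTurbulent G x} := by
  classical
  set B := TopologicalSpace.countableBasis X with hB
  have hBb := TopologicalSpace.isBasis_countableBasis X
  have hBc : B.Countable := TopologicalSpace.countable_countableBasis X
  obtain ⟨v, hv⟩ := (𝓝 (1 : G)).exists_antitone_basis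
  set V : ℕ → Set G := fun n => interior (v n) ∩ (interior (v n))⁻¹ with hVdef
  have hVo : ∀ n, IsOpen (V n) := fun n => isOpen_interior.inter isOpen_interior.inv
  have hV1 : ∀ n, (1 : G) ∈ V n := by
    intro n
    have : (1 : G) ∈ interior (v n) := mem_interior_iff_mem_nhds.2 (hv.mem n)
    exact ⟨this, by simpa using this⟩
  have hVs : ∀ n, ∀ g ∈ V n, g⁻¹ ∈ V n := by
    rintro n g ⟨h1, h2⟩
    exact ⟨h2, by simpa using h1⟩
  have hVb : ∀ U : Set G, IsOpen U → (1 : G) ∈ U → ∃ n, V n ⊆ U := by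
    intro U hU h1
    obtain ⟨n, hn⟩ := hv.mem_iff.1 (hU.mem_nhds h1)
    exact ⟨n, inter_subset_left.trans (interior_subset.trans hn)⟩
  have key : {x : X | IsTurbulent G x} =
      ⋂ N ∈ B, ⋂ n : ℕ, (Nᶜ ∪ {x | x ∈ N ∧ x ∈ interior (closure (LocalOrbit x N (V n)))}) := by
    ext x
    simp only [mem_ofPred_eq, mem_iInter, mem_union, mem_compl_iff]
    constructor
    · intro hx N hN n
      by_cases hxN : x ∈ N
      · right
        exact ⟨hxN, self_mem_interior (hBb.isOpen hN) (hVs n) hxN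
          (hx N (hBb.isOpen hN) hxN (V n) (hVo n) (hV1 n) (hVs n))⟩
      · exact Or.inl hxN
    · intro hx U hU hxU W hW h1 hWs
      obtain ⟨N, hN, hxN, hNU⟩ := hBb.exists_subset_of_mem_open hxU hU
      obtain ⟨n, hn⟩ := hVb W hW h1
      rcases hx N hN n with h | h
      · exact absurd hxN h
      · exact ⟨x, interior_mono (closure_mono (localOrbit_mono hNU hn x)) h.2⟩
  rw [key]
  refine IsGδ.biInter hBc ?_
  intro N hN
  refine IsGδ.iInter ?_
  intro n
  refine IsGδ.union ?_ ?_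
  · let _ := TopologicalSpace.upgradeIsCompletelyMetrizable X
    exact (hBb.isOpen hN).isClosed_compl.isGδ
  · exact isGδ_aux (hBb.isOpen hN) (hVs n)

end Pool.Agent.Results.MP_6b7ad2_lc.TurbulentGdelta
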